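import Pool.Agent.Y706.BI.Stm

/-!
# Project BI, job BI-CJB: a conjugate of a bicritical map is bicritical
-/

set_option autoImplicit false

namespace Pool.Agent.Y455.BI

open Pool.Agent.Y706.BI
open Pool.Agent.W277.UB Pool.Agent.W277.UG Pool.Agent.W277.UH Finset Polynomial

universe u v w

/-- one coordinate -/
lemma cjb_one {M : Type u} [Field M] [Infinite M] (d : ℕ) (a b c e s α β : M) (p q u : M[X])
    (hu : u.natDegree ≤ d) (hdet : a * e - b * c ≠ 0)
    (h : hc d u (C a * X + C b) (C c * X + C e) = C s * (C α * p + C β * q))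
    (A B U V : M × M)
    (hp : p = C U.1 * (C A.2 * X - C A.1) ^ d + C V.1 * (C B.2 * X - C B.1) ^ d)
    (hq : q = C U.2 * (C A.2 * X - C A.1) ^ d + C V.2 * (C B.2 * X - C B.1) ^ d) :
    u = C (s / (a * e - b * c) ^ d * (α * U.1 + β * U.2)) *
        (C (c * A.1 + e * A.2) * X - C (a * A.1 + b * A.2)) ^ d +
      C (s / (a * e - b * c) ^ d * (α * V.1 + β * V.2)) *
        (C (c * B.1 + e * B.2) * X - C (a * B.1 + b * B.2)) ^ d := by
  apply Polynomial.eq_of_infinite_eval_eq
  have hfin : {y : M | a - c * y = 0}.Finite := by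
    apply Set.Subsingleton.finite
    intro y hy z hz
    simp only [Set.mem_ofPred_eq] at hy hz
    by_cases hc : c = 0
    · exfalso
      apply hdet
      rw [hc, zero_mul, sub_zero] at hy
      rw [hy, hc]
      ring
    · have : c * (y - z) = 0 := by linear_combination hz - hy
      exact sub_eq_zero.1 ((mul_eq_zero.1 this).resolve_left hc)
  refine hfin.infinite_compl.mono ?_
  intro y hy
  simp only [Set.mem_compl_iff, Set.mem_ofPred_eq] at hy ⊢
  set D := a * e - b * c with hD
  set t := a - c * y with ht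
  have h1 := congrArg (Polynomial.eval ((e * y - b) / t)) h
  rw [hc_eval] at h1
  have e1 : (C a * X + C b : M[X]).eval ((e * y - b) / t) = D * y / t := by
    simp only [eval_add, eval_mul, eval_C, eval_X]
    field_simp
    rw [hD, ht]; ring
  have e2 : (C c * X + C e : M[X]).eval ((e * y - b) / t) = D / t := by
    simp only [eval_add, eval_mul, eval_C, eval_X]
    field_simp
    rw [hD, ht]; ring
  have e3 : D / t ≠ 0 := div_ne_zero hdet hy
  rw [e1, e2, hev_eval d u hu _ e3] at h1
  have e4 : D * y / t / (D / t) = y := by field_simp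
  simp only [e4] at h1
  rw [hp, hq] at h1
  simp only [eval_add, eval_mul, eval_C, eval_X, eval_sub, eval_pow] at h1
  have e5 : ∀ Z : M × M, Z.2 * ((e * y - b) / t) - Z.1 =
      ((c * Z.1 + e * Z.2) * y - (a * Z.1 + b * Z.2)) / t := by
    intro Z
    field_simp
    rw [ht]; ring
  rw [e5, e5, div_pow, div_pow, div_pow] at h1
  simp only [eval_add, eval_mul, eval_C, eval_X, eval_sub, eval_pow]
  have e6 : D ^ d ≠ 0 := pow_ne_zero _ hdet
  have e7 : t ^ d ≠ 0 := pow_ne_zero _ hy
  generalize ((c * A.1 + e * A.2) * y - (a * A.1 + b * A.2)) ^ d = PA at *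
  generalize ((c * B.1 + e * B.2) * y - (a * B.1 + b * B.2)) ^ d = PB at *
  field_simp at h1 ⊢
  linear_combination h1

theorem t_CJB : S_CJB.{u} := by
  intro M _ _ d a b c e p q u w _ _ hu hw ⟨hdet, s, _, h1, h2⟩ ⟨A, B, U, V, hAB, hp, hq⟩
  refine ⟨(a * A.1 + b * A.2, c * A.1 + e * A.2), (a * B.1 + b * B.2, c * B.1 + e * B.2),
    (s / (a * e - b * c) ^ d * (a * U.1 + b * U.2), s / (a * e - b * c) ^ d * (c * U.1 + e * U.2)),
    (s / (a * e - b * c) ^ d * (a * V.1 + b * V.2), s / (a * e - b * c) ^ d * (c * V.1 + e * V.2)),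
    ?_, ?_, ?_⟩
  · have : wd (a * A.1 + b * A.2, c * A.1 + e * A.2) (a * B.1 + b * B.2, c * B.1 + e * B.2) =
        (a * e - b * c) * wd A B := by
      unfold wd; ring
    rw [this]
    exact mul_ne_zero hdet hAB
  · exact cjb_one d a b c e s a b p q u hu hdet h1 A B U V hp hq
  · exact cjb_one d a b c e s c e p q w hw hdet h2 A B U V hp hq

end Pool.Agent.Y455.BI
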