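import Pool.Agent.Y706.BI.Stm

/-!
# Project BI, job BI-CJP: points under a conjugation
-/

set_option autoImplicit false

namespace Pool.Agent.Y455.BI

open Pool.Agent.Y706.BI
open Pool.Agent.W277.UB Pool.Agent.W277.UG Pool.Agent.W277.UH Finset Polynomial

universe u v w

/-- the point `Y` is determined by proportional coordinates -/
lemma point_eq {E : Type v} {L : Type u} [Field E] [Field L] [Algebra E L]
    (a b c e y T : L) (hT : T ≠ 0) (α β : E) (hα : algebraMap E L α * T = a * y + b)
    (hβ : algebraMap E L β * T = c * y + e) (Y : Option E)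
    (hY : Y.elim (c * y + e = 0) fun s => c * y + e ≠ 0 ∧
      algebraMap E L s * (c * y + e) = a * y + b) :
    (β = 0 → Y = none) ∧ (β ≠ 0 → Y = some (α / β)) := by
  have hinj := (algebraMap E L).injective
  constructor
  · rintro rfl
    cases Y with
    | none => rfl
    | some s =>
      exfalso
      apply hY.1
      rw [← hβ, map_zero, zero_mul]
  · intro hb
    have hne : c * y + e ≠ 0 := by
      rw [← hβ]
      exact mul_ne_zero (by rwa [Ne, map_eq_zero]) hT
    cases Y with
    | none => exact absurd hY hne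
    | some s =>
      have h1 := hY.2
      rw [← hα, ← hβ, ← mul_assoc] at h1
      have h2 := mul_right_cancel₀ hT h1
      rw [← map_mul] at h2
      rw [← hinj h2, mul_div_cancel_right₀ _ hb]

theorem t_CJP : S_CJP.{u, v} := by
  intro E L _ _ _ d a b c e p q u w hd _ _ _ hmax ⟨hdet, s, hs, h1, h2⟩ x y X Y hqx hy hX hY
  have hu : u.natDegree ≤ d := by rw [← hmax]; exact le_max_left _ _
  have hw : w.natDegree ≤ d := by rw [← hmax]; exact le_max_right _ _
  have hu' : (u.map (algebraMap E L)).natDegree ≤ d := natDegree_map_le.trans hu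
  have hw' : (w.map (algebraMap E L)).natDegree ≤ d := natDegree_map_le.trans hw
  have hpx : p.eval x = y * q.eval x := by rw [hy, div_mul_cancel₀ _ hqx]
  have k1 := congrArg (Polynomial.eval x) h1
  have k2 := congrArg (Polynomial.eval x) h2
  rw [hc_eval] at k1 k2
  simp only [eval_add, eval_mul, eval_C, eval_X, hpx] at k1 k2
  have hsq : s * q.eval x ≠ 0 := mul_ne_zero hs hqx
  cases X with
  | some s0 =>
    obtain ⟨hne, hs0⟩ := hX
    have hdiv : (a * x + b) / (c * x + e) = algebraMap E L s0 := by
      rw [← hs0, mul_div_cancel_right₀ _ hne]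
    rw [hev_eval d _ hu' _ hne] at k1
    rw [hev_eval d _ hw' _ hne] at k2
    simp only [hdiv] at k1 k2
    rw [eval_map, eval₂_at_apply] at k1 k2
    have hT : (c * x + e) ^ d / (s * q.eval x) ≠ 0 := div_ne_zero (pow_ne_zero _ hne) hsq
    obtain ⟨r1, r2⟩ := point_eq a b c e y _ hT (u.eval s0) (w.eval s0)
      (by rw [mul_div_assoc', div_eq_iff hsq]; linear_combination k1)
      (by rw [mul_div_assoc', div_eq_iff hsq]; linear_combination k2) Y hY
    by_cases hb : w.eval s0 = 0
    · rw [ratP1_some0 u w d s0 hb, r1 hb]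
    · rw [ratP1_some u w d s0 hb, r2 hb]
  | none =>
    have hce : c * x + e = 0 := hX
    have hab : a * x + b ≠ 0 := by
      intro h0
      apply hdet
      linear_combination a * hce - c * h0
    rw [hce, hev_zero] at k1 k2
    rw [coeff_map] at k1 k2
    have hT : (a * x + b) ^ d / (s * q.eval x) ≠ 0 := div_ne_zero (pow_ne_zero _ hab) hsq
    obtain ⟨r1, r2⟩ := point_eq a b c e y _ hT (u.coeff d) (w.coeff d)
      (by rw [mul_div_assoc', div_eq_iff hsq]; linear_combination k1)
      (by rw [mul_div_assoc', div_eq_iff hsq]; linear_combination k2) Y hY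
    by_cases hb : w.coeff d = 0
    · rw [ratP1_none0 u w d hb, r1 hb]
    · rw [ratP1_none u w d hb, r2 hb]

end Pool.Agent.Y455.BI
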